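import Pool.Agent.J6H42.CE.Field2

/-! # MP_2429c0_al: fields whose core has index at most sixteen

Let `F` be a field of characteristic `≠ 2` with finitely many square classes, and let `N(a)` be the
group of the nonzero values of `x² - a y²`.  A subgroup `L` of `F*` is closed, if it contains all
`a` with `N(a)` of index at most two in `F*`, and all `a` with `N(a) L = F*`; the core `C` is the
smallest closed subgroup.  If `C` has index at most sixteen in `F*`, then the quaternionic structure
of `F` is of elementary type.  More generally this is so, if every closed subgroup `L` of index at
least eight is generated, as a closed subgroup, by finitely many elements `e` which are independent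
over the core: for all `x_e ∈ F*` some `z` lies in all the cosets `x_e N(e) C`.  (One element is
always independent.) -/

set_option autoImplicit false

namespace Pool.Agent.Results.MP_2429c0_al.CoreSixteen

open Pool.Agent.H315R3.ETC Pool.Agent.TH188.ET Pool.Agent.TH673.VG Pool.Agent.J6H42.CE

universe u

theorem result {F : Type u} [Field F] (h2 : (2 : F) ≠ 0) (hfin : FinSq F) :
    -- the core has index at most sixteen
    ((fieldCore F).index ≤ 16 → ∃ S : QData, Elem S ∧ IsStructureOf F S) ∧
    -- more generally: the closed subgroups of index at least eight are generated by independent
    -- elements
    ((∀ L : Subgroup Fˣ, NormClosed L → 8 ≤ L.index →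
      ∃ A : Finset Fˣ, GeneratedBy L A ∧ IndepOver A) → ∃ S : QData, Elem S ∧ IsStructureOf F S) :=
  ⟨elem_field_sixteen h2 hfin, elem_field_ind h2 hfin⟩

end Pool.Agent.Results.MP_2429c0_al.CoreSixteen
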