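import Pool.Agent.J6H42.CE.Field

/-! # MP_2429c0_al: symbols with a slot in the core

Let `F` be a field of characteristic `≠ 2` with finitely many square classes, and let `C` be its
core.  The symbols `{a,x}` with `a ∈ C` form a subgroup of `K_2(F)/2`, and each of them is of the
form `{k,y}` with `k` in the subgroup generated by the elements `b` with `N(b)` of index at most
two.  For every `e ∈ F*`, every symbol on `⟨C, e⟩` (a bimultiplicative map `⟨C, e⟩ × F* → ℤ/2`
which vanishes on the pairs `(a,b)` with `b ∈ N(a)`) extends to a symbol on `F*`: the relations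
between the symbols `{a,b}` with `a ∈ ⟨C, e⟩` all follow from bimultiplicativity and
`{a, N(a)} = 0` for `a ∈ ⟨C, e⟩`. -/

set_option autoImplicit false

namespace Pool.Agent.Results.MP_2429c0_al.CoreSymbols

open Pool.Agent.TH188.ET Pool.Agent.TH673.VG Pool.Agent.J6H42.CE

universe u

theorem result {F : Type u} [Field F] (h2 : (2 : F) ≠ 0) (hfin : FinSq F) :
    -- sums of symbols with a slot in the core
    (∀ a ∈ fieldCore F, ∀ a' ∈ fieldCore F, ∀ x x' : Fˣ,
      ∃ k ∈ Subgroup.closure {b : Fˣ | (normGroup b).index ≤ 2}, ∃ y : Fˣ,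
        sy k y = sy a x + sy a' x') ∧
    -- symbols on the subgroup generated by the core and one element
    (∀ (e : Fˣ) (χ : Fˣ → Fˣ → ZMod 2), SymbolOn (fieldCore F ⊔ Subgroup.zpowers e) χ →
      ∃ χ' : Fˣ → Fˣ → ZMod 2, SymbolOn ⊤ χ' ∧
        ∀ a ∈ fieldCore F ⊔ Subgroup.zpowers e, ∀ b : Fˣ, χ' a b = χ a b) :=
  ⟨fun a ha a' ha' x x' => sum_field_K2 h2 hfin a a' ha ha' x x',
    fun e χ hχ => symbol_extend h2 hfin e χ hχ⟩

end Pool.Agent.Results.MP_2429c0_al.CoreSymbols
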