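import Pool.Agent.J6H71.ET.Fld3

/-! # MP_2429c0_al: fields whose norm groups have average index at most `39/4`

Let `F` be a field of characteristic `≠ 2` with finitely many square classes, and let `N(a)` be the
group of the nonzero values of `x² - a y²`.  The quaternionic structure of `F` is of elementary
type in each of the following cases: the average over all square classes `a` of the number
`min(16, |F* : N(a)|)` is at most `39/4` (for instance, if all norm groups have index at most
eight); the average over the square classes outside the core is at most `39/4`; fewer than `5/8` of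
the square classes lie outside the core of `F` and have a norm group of index greater than four;
the quaternion algebra `(a,b)` is split for more than `161/1024 = 0.157…` of all pairs of square
classes; it is split for at least `73/512 = 0.142…` of the pairs with `a` outside the core.  These
follow from a criterion: it is enough that each closed subgroup `H` of `F*` (of index at least
eight in `F*`, in which the core has index at least four) has one of three properties: the average
of `min(8, |F* : N(h)|)` over the classes `h` in `H` is less than `43/8`; or, for every subgroup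
`V = ⟨a,b,c⟩` of `H`, more than a quarter of all square classes `x` have at most two quaternion
algebras `(v,x)`, `v ∈ V`, or the average number of these quaternion algebras over all `x` is less
than `43/8`; or every quaternion algebra `(h,z)` with `h` in `H` is isomorphic to some `(k,w)` with
`k` in `H` and at most four quaternion algebras `(v,w)`, `v ∈ H`. -/

set_option autoImplicit false

namespace Pool.Agent.Results.MP_2429c0_al.HalfNormGroups

open Pool.Agent.H315R3.ETC Pool.Agent.TH188.ET Pool.Agent.TH673.VG
open scoped Quaternion

/-- the group of squares of `F*` -/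
def squares (F : Type*) [Field F] : Subgroup Fˣ := (powMonoidHom 2 : Fˣ →* Fˣ).range

/-- the index in `F*` of the norm group `N(a)`, for `a` in the square class `x` -/
noncomputable def normIndex {F : Type*} [Field F] (x : Fˣ ⧸ squares F) : ℕ :=
  (normGroup x.out).index

/-- the index in `V` of `V ∩ N(a)`, for `a` in the square class `x`: this is the number of the
quaternion algebras `(v,a)`, `v ∈ V`, up to isomorphism -/
noncomputable def algebras {F : Type*} [Field F] (V : Subgroup Fˣ) (x : Fˣ ⧸ squares F) : ℕ :=
  (normGroup x.out).relIndex V

/-- the square classes outside the core of `F` -/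
def Outside (F : Type*) [Field F] : Set (Fˣ ⧸ squares F) :=
  {x | ∃ a : Fˣ, (a : Fˣ ⧸ squares F) = x ∧ a ∉ fieldCore F}

/-- the square classes outside the core whose norm group has index greater than four -/
def Exceptional (F : Type*) [Field F] : Set (Fˣ ⧸ squares F) :=
  {x | ∃ a : Fˣ, (a : Fˣ ⧸ squares F) = x ∧ a ∉ fieldCore F ∧ 4 < (normGroup a).index}

/-- the square classes `b` such that `V ∩ N(b)` has index at most two in `V` (so there are at most
two classes of quaternion algebras `(v,b)`, `v ∈ V`) -/
def TwoOn {F : Type*} [Field F] (V : Subgroup Fˣ) : Set (Fˣ ⧸ squares F) :=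
  {x | ∃ b : Fˣ, (b : Fˣ ⧸ squares F) = x ∧ (normGroup b).relIndex V ≤ 2}

/-- the square classes of the elements of `H` -/
def ClassesOf {F : Type*} [Field F] (H : Subgroup Fˣ) : Set (Fˣ ⧸ squares F) :=
  {x | ∃ a : Fˣ, (a : Fˣ ⧸ squares F) = x ∧ a ∈ H}

/-- the pairs of square classes `(a,b)` with `(a,b)` split -/
def SplitPairs (F : Type*) [Field F] : Set ((Fˣ ⧸ squares F) × (Fˣ ⧸ squares F)) :=
  {p | ∃ a b : Fˣ, b ∈ normGroup a ∧ p = ((a : Fˣ ⧸ squares F), (b : Fˣ ⧸ squares F))}

/-- the pairs of square classes `(a,b)` with `(a,b)` split and `a` outside the core -/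
def SplitPairsOutside (F : Type*) [Field F] : Set ((Fˣ ⧸ squares F) × (Fˣ ⧸ squares F)) :=
  {p | ∃ a b : Fˣ, a ∉ fieldCore F ∧ b ∈ normGroup a ∧
    p = ((a : Fˣ ⧸ squares F), (b : Fˣ ⧸ squares F))}

/-- the quaternionic structure of `F` is of elementary type -/
def ElementaryType (F : Type*) [Field F] : Prop := ∃ S : QData, Elem S ∧ IsStructureOf F S

theorem result {F : Type*} [Field F] (h2 : (2 : F) ≠ 0) (hfin : FinSq F) :
    -- the average of `min(16, |F* : N(a)|)` is at most `39/4`
    (4 * ∑ᶠ x : Fˣ ⧸ squares F, min 16 (normIndex x) ≤ 39 * (squares F).index →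
      ElementaryType F) ∧
    -- the same for the square classes outside the core
    (4 * ∑ᶠ x ∈ Outside F, min 16 (normIndex x) ≤ 39 * (Outside F).ncard →
      ElementaryType F) ∧
    -- fewer than `5/8` of the square classes are exceptional
    (8 * (Exceptional F).ncard < 5 * (squares F).index → ElementaryType F) ∧
    -- more than `161/1024` of the quaternion algebras are split
    (161 * (squares F).index ^ 2 < 1024 * (SplitPairs F).ncard → ElementaryType F) ∧
    -- at least `73/512` of the quaternion algebras with a slot outside the core are split
    (73 * (squares F).index * (Outside F).ncard ≤ 512 * (SplitPairsOutside F).ncard →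
      ElementaryType F) ∧
    -- the criterion: each closed `H` has a small average, ...
    ((∀ H : Subgroup Fˣ, NormClosed H → 8 ≤ H.index → 4 ≤ (fieldCore F).relIndex H →
        8 * ∑ᶠ x ∈ ClassesOf H, min 8 (normIndex x) < 43 * (ClassesOf H).ncard ∨
        -- ... or few algebras over each of its subgroups generated by three elements, ...
        (∀ a : Fin 3 → Fˣ, (∀ j, a j ∈ H) →
          (squares F).index < 4 * (TwoOn (Subgroup.closure (Set.range a))).ncard ∨
          8 * ∑ᶠ x : Fˣ ⧸ squares F, algebras (Subgroup.closure (Set.range a)) x <
            43 * (squares F).index) ∨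
        -- ... or good representations of its algebras
        ∀ g ∈ H, ∀ z : Fˣ, ∃ k ∈ H, ∃ w : Fˣ,
          Nonempty (ℍ[F,(k : F),0,(w : F)] ≃ₐ[F] ℍ[F,(g : F),0,(z : F)]) ∧
          (normGroup w).relIndex H ≤ 4) → ElementaryType F) ∧
    -- a small average bounds all indices
    (∀ N : ℕ, ∑ᶠ x : Fˣ ⧸ squares F, normIndex x ≤ N * (squares F).index →
      ∀ a : Fˣ, (normGroup a).index ≤ 4 * N ^ 2) :=
  ⟨Pool.Agent.J6H71.ET.field_average2 h2 hfin, Pool.Agent.J6H71.ET.field_average_out2 h2 hfin,
    Pool.Agent.J6H71.ET.field_few2 h2 hfin, Pool.Agent.J6H71.ET.field_split2 h2 hfin,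
    Pool.Agent.J6H71.ET.field_split_out2 h2 hfin, Pool.Agent.J6H71.ET.field_crit3 h2 hfin,
    fun N hN a => Pool.Agent.J6H71.ET.field_bound h2 hfin N hN a⟩

end Pool.Agent.Results.MP_2429c0_al.HalfNormGroups
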