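import Pool.Agent.Results.MP_2429c0_al.HigherCommonSlot
import Pool.Agent.J6H81.WE.Fin
import Pool.Agent.J6H81.WE.Gen
import Pool.Agent.J6H81.WE.Uni
import Pool.Agent.J6H81.WE.Val
import Pool.Agent.J6H81.WE.Norm
import Pool.Agent.J6H81.WE.Map

/-! # MP_2429c0_al: the elementary type property descends along odd degree extensions and places

Let `K` be a field of elementary type, that is, of characteristic `≠ 2`, with finitely many square
classes and with a quaternionic structure (equivalently, Witt ring) of elementary type. Let `F` be a
subfield of `K`.

* If `K` is a union of finite extensions of `F` of odd degree, then `F` is of elementary type. For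
  instance, fixed fields of groups of automorphisms of odd order of `K` are of elementary type.
* More generally, `F` is of elementary type if `K` has a valuation ring that contains `F` and whose
  residue field is a union of finite extensions of `F` of odd degree.
* If a field with finitely many square classes is a directed union of fields of elementary type (of
  any fields over which all relations between symbols in `K_2/2` come from common slots), it is of
  elementary type. So Q1 reduces to the fields which are obtained from finitely generated fields by
  successively adjoining square roots.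

The class `Cls` of fields generated by these operations and by a local-global principle also contains
fields with infinitely many square classes. All relations between symbols in `K_2(F)/2` come from
common slots for the fields `F` of this class; those with finitely many square classes are of
elementary type. -/

set_option autoImplicit false

universe u

namespace Pool.Agent.Results.MP_2429c0_al.OddDegreeDescent

open Pool.Agent.H315R3.ETC Pool.Agent.TH188.ET Pool.Agent.J6H81.WE

theorem result :
    -- (1) the fields of the class `Cls`
    (∀ (F : Type u) (i : Field F), Cls F i → RelationsFromSlots F ∧ (FinSq F → ET F)) ∧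
    -- (2) descent along unions of extensions of odd degree
    (∀ (F K : Type u) [Field F] [Field K] [Algebra F K], OddExt F K → ET K → ET F) ∧
    -- (3) descent along places
    (∀ (F K : Type u) [Field F] [Field K] (O : ValuationSubring K) (f : F →+* O),
      OddPlace F K O f → ET K → ET F) ∧
    -- (4) directed unions
    (∀ (F ι : Type u) [Field F] [Preorder ι] [IsDirected ι (· ≤ ·)] [Nonempty ι]
      (E : ι → Subfield F), Monotone E → (∀ x, ∃ t, x ∈ E t) → FinSq F → (∀ t, ET (E t)) → ET F) ∧
    -- (5) fixed fields of groups of odd order
    (∀ (K G : Type u) [Field K] [Group G] [Finite G] [MulSemiringAction G K] [FaithfulSMul G K],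
      Odd (Nat.card G) → ET K → ET (FixedPoints.subfield G K)) ∧
    -- (6) reduction to towers of quadratic extensions of finitely generated fields
    ((∀ (F : Type u) [Field F], (2 : F) ≠ 0 → FinSq F → QuadGen F → ET F) →
      ∀ (F : Type u) [Field F], (2 : F) ≠ 0 → FinSq F → ET F) := by
  have hE : ∀ (F : Type u) [Field F], ET F → RelationsFromSlots F := fun F _ h =>
    (HigherCommonSlot.result h.1 h.2.1).1.1 h.2.2
  have main : ∀ (F : Type u) (i : Field F), Cls F i → (2 : F) ≠ 0 ∧ RelationsFromSlots F :=
    relations_of_cls s_map s_norm s_uni s_val hE
  have main2 : ∀ (F : Type u) (i : Field F), Cls F i → FinSq F → ET F := fun F i h hfin =>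
    ⟨(main F i h).1, hfin, (HigherCommonSlot.result (main F i h).1 hfin).1.2 (main F i h).2⟩
  have main3 : ∀ (F K : Type u) [Field F] [Field K] [Algebra F K], OddExt F K → ET K → ET F := by
    intro F K _ _ _ ho h
    refine main2 F _ (Cls.odd F K ho (Cls.elem K h)) ?_
    exact finSq_of_inj (algebraMap F K) h.2.1 fun a t ht => sq_of_oddExt ho a t ht
  refine ⟨fun F i h => ⟨(main F i h).2, main2 F i h⟩, main3, ?_, ?_, ?_, ?_⟩
  · intro F K _ _ O f hp h
    exact main2 F _ (Cls.place F K O f hp (Cls.elem K h)) (finSq_of_place O f hp h.2.1)
  · intro F ι _ _ _ _ E hmono hcov hfin h
    exact main2 F _ (Cls.union F ι E hmono hcov fun t => Cls.elem (E t) (h t)) hfin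
  · intro K G _ _ _ _ _ hG h
    exact main3 _ K (oddExt_fixed hG) h
  · intro h F _ h2 hfin
    exact main2 F _ (cls_of_quadGen h F h2 hfin) hfin

end Pool.Agent.Results.MP_2429c0_al.OddDegreeDescent
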